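import Pool.Agent.Helper28.MT.Goals3

/-!
# Project MT3 (MP_bb782b_co), packet ENCA: short description of the blurred dual set
-/

set_option autoImplicit false

namespace Pool.Agent.Helper64.MT3

open Finset
open Pool.Agent.Helper55.Rota
open Pool.Agent.Helper28.MT
open Pool.Agent.Helper28.MT3

/-- the identity of Hermite -/
lemma hermite (c0 : ℕ) (hc : 1 ≤ c0) (p : ℕ) : ∑ o ∈ range c0, (p + o) / c0 = p := by
  induction p with
  | zero =>
    refine sum_eq_zero fun o ho => ?_
    rw [zero_add]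
    exact Nat.div_eq_of_lt (mem_range.mp ho)
  | succ p ih =>
    have h1 : ∑ o ∈ range (c0 + 1), (p + o) / c0 =
        ∑ o ∈ range c0, (p + o) / c0 + (p + c0) / c0 := sum_range_succ _ _
    have h2 : ∑ o ∈ range (c0 + 1), (p + o) / c0 =
        ∑ o ∈ range c0, (p + (o + 1)) / c0 + (p + 0) / c0 := sum_range_succ' _ _
    have h3 : (p + c0) / c0 = p / c0 + 1 := Nat.add_div_right p hc
    have h4 : ∑ o ∈ range c0, (p + 1 + o) / c0 = ∑ o ∈ range c0, (p + (o + 1)) / c0 :=
      sum_congr rfl fun o _ => by rw [show p + 1 + o = p + (o + 1) by ring]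
    rw [h4]
    rw [add_zero] at h2
    omega

lemma hermite_sub (c0 : ℕ) (hc : 1 ≤ c0) (p q : ℕ) :
    ∑ o ∈ range c0, ((p + o) / c0 - (q + o) / c0) = p - q := by
  rcases le_total q p with h | h
  · rw [sum_tsub_distrib _ (fun o _ => Nat.div_le_div_right (by omega)), hermite c0 hc,
      hermite c0 hc]
  · rw [Nat.sub_eq_zero_of_le h]
    refine sum_eq_zero fun o _ => ?_
    exact Nat.sub_eq_zero_of_le (Nat.div_le_div_right (by omega))

lemma cnt {α : Type} [Fintype α] (Y V : α → ℕ) (M : ℕ) (hM : ∀ x, Y x ≤ M) :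
    ∑ x, (Y x - V x) =
      ∑ i ∈ Icc 1 M, (univ.filter (fun x => V x < i ∧ i ≤ Y x)).card := by
  have h1 : ∀ x, Y x - V x = ∑ i ∈ Icc 1 M, if V x < i ∧ i ≤ Y x then 1 else 0 := by
    intro x
    rw [← card_filter, ← Nat.card_Ioc]
    congr 1
    ext i
    rw [mem_Ioc, mem_filter, mem_Icc]
    have := hM x
    omega
  rw [sum_congr rfl fun x _ => h1 x, sum_comm]
  refine sum_congr rfl fun i _ => ?_
  rw [card_filter]

lemma enum {β : Type} (P : Finset β) (m : ℕ) (hP : P.card ≤ m) (d : β) :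
    ∃ Q : Fin m → β, (∀ p ∈ P, ∃ i, Q i = p) ∧ ∀ i, Q i ∈ P ∨ Q i = d := by
  refine ⟨fun i => if h : i.val < P.card then (P.equivFin.symm ⟨i.val, h⟩).1 else d, ?_, ?_⟩
  · intro p hp
    refine ⟨⟨(P.equivFin ⟨p, hp⟩).val, lt_of_lt_of_le (P.equivFin ⟨p, hp⟩).2 hP⟩, ?_⟩
    simp only
    rw [dif_pos (P.equivFin ⟨p, hp⟩).2]
    simp
  · intro i
    by_cases h : i.val < P.card
    · left
      simp only [dif_pos h]
      exact (P.equivFin.symm ⟨i.val, h⟩).2
    · right
      simp only [dif_neg h]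

theorem mt3_enca (hX : G_X) : G_ENCA := by
  intro α _ _ R n k b t a S c T y v c0 m hk hn hR hloop hb hind ha hO hc0 hG
  obtain ⟨⟨hTS, hTb, hTr, hcl, -, hTy, hTl⟩, hact⟩ := hO
  have hc0' : 0 < c0 := hc0
  have hkc : 0 < k * c0 := Nat.mul_pos hk hc0'
  -- the size of a union of blocks
  have hA : ∀ I : Finset (Fin n), (blkU b I).card = k * I.card := by
    intro I
    rw [card_eq_sum_card_fiberwise (f := b) (t := I) (fun x hx => by
      have := mem_blkU.1 (mem_coe.1 hx); exact_mod_cast this)]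
    rw [sum_congr rfl (g := fun _ => k)]
    · rw [sum_const, smul_eq_mul, mul_comm]
    · intro i hi
      rw [← hb i]
      congr 1
      ext x
      simp only [mem_filter, mem_univ, true_and, mem_blkU]
      constructor
      · exact fun h => h.2
      · exact fun h => ⟨h ▸ hi, h⟩
  -- the layers
  have hlay : ∀ μ, 1 ≤ μ → ∀ i, μ ≤ y i →
      k ≤ (univ.filter (fun x => v x < μ ∧ μ ≤ y (b x))).card := by
    intro μ h1 i hi
    have h2 := hact μ h1 i hi
    have h3 := (hX α R n k b t hk hb hind (univ.filter (fun i' => μ ≤ y i')) (lev v μ)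
      (hcl μ) h2).1
    have h4 : blkU b (univ.filter (fun i' => μ ≤ y i')) \ lev v μ =
        univ.filter (fun x => v x < μ ∧ μ ≤ y (b x)) := by
      ext x
      simp only [mem_sdiff, mem_blkU, mem_filter, mem_univ, true_and, mem_lev, not_le]
      exact and_comm
    rw [h4] at h3
    refine le_trans ?_ h3
    exact Nat.le_mul_of_pos_right k (Nat.sub_pos_of_lt h2)
  have hB : ∀ i, k * y i ≤ ∑ x, (y (b x) - v x) := by
    intro i
    rw [cnt (fun x => y (b x)) v (univ.sup y) (fun x => le_sup (mem_univ (b x)))]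
    calc k * y i = ∑ μ ∈ Icc 1 (y i), k := by
          rw [sum_const, Nat.card_Icc, smul_eq_mul, Nat.add_sub_cancel, mul_comm]
      _ ≤ ∑ μ ∈ Icc 1 (y i), (univ.filter (fun x => v x < μ ∧ μ ≤ y (b x))).card :=
          sum_le_sum fun μ hμ => hlay μ (mem_Icc.mp hμ).1 i (mem_Icc.mp hμ).2
      _ ≤ ∑ μ ∈ Icc 1 (univ.sup y), (univ.filter (fun x => v x < μ ∧ μ ≤ y (b x))).card :=
          sum_le_sum_of_subset (Icc_subset_Icc_right (le_sup (mem_univ i)))
  have hC : ∀ x, ∃ i, v x ≤ y i := by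
    intro x
    by_contra hcon
    push Not at hcon
    have h1 : T ∩ lev v (v x) = ∅ := by
      rw [eq_empty_iff_forall_notMem]
      intro z hz
      obtain ⟨hz1, hz2⟩ := mem_inter.mp hz
      rw [mem_lev] at hz2
      have := hTy z hz1
      have := hcon (b z)
      omega
    have h2 := hTl (v x)
    rw [h1, card_empty] at h2
    have h3 : R.r {x} ≤ R.r (lev v (v x)) :=
      R.mono (singleton_subset_iff.mpr (mem_lev.mpr le_rfl))
    have := hloop x
    omega
  -- the offset
  obtain ⟨o, ho, hoD⟩ : ∃ o ∈ range c0,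
      c0 * ∑ x, ((y (b x) + o) / c0 - (v x + o) / c0) ≤ ∑ x, (y (b x) - v x) := by
    by_contra hcon
    push Not at hcon
    have h1 : ∑ o ∈ range c0, ∑ x, ((y (b x) + o) / c0 - (v x + o) / c0) =
        ∑ x, (y (b x) - v x) := by
      rw [sum_comm]
      exact sum_congr rfl fun x _ => hermite_sub c0 hc0 _ _
    have h2 : ∑ _o ∈ range c0, ∑ x, (y (b x) - v x) <
        ∑ o ∈ range c0, c0 * ∑ x, ((y (b x) + o) / c0 - (v x + o) / c0) :=
      sum_lt_sum_of_nonempty (nonempty_range_iff.mpr (by omega)) hcon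
    rw [← mul_sum, h1, sum_const, card_range, smul_eq_mul] at h2
    exact lt_irrefl _ h2
  rw [mem_range] at ho
  obtain ⟨V, hV⟩ : ∃ V : α → ℕ, ∀ x, V x = (v x + o) / c0 := ⟨_, fun _ => rfl⟩
  obtain ⟨g0, hg0⟩ : ∃ g0 : Fin n → ℕ, ∀ i, g0 i = (y i + o) / c0 := ⟨_, fun _ => rfl⟩
  have hoD' : c0 * ∑ x, (g0 (b x) - V x) ≤ ∑ x, (y (b x) - v x) := by
    rw [sum_congr rfl fun x _ => by rw [hV x, hg0 (b x)]]
    exact hoD
  have hgm : ∀ i, g0 i < m := by
    intro i
    have h1 : g0 i * c0 ≤ y i + o := by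
      rw [hg0]
      exact Nat.div_mul_le_self _ _
    have h2 := hB i
    have h3 : k * (g0 i * c0) ≤ k * (y i + o) := Nat.mul_le_mul_left k h1
    have h5 : k * o ≤ k * c0 := Nat.mul_le_mul_left k ho.le
    by_contra hcon
    push Not at hcon
    have h4 : m * (k * c0) ≤ g0 i * (k * c0) := Nat.mul_le_mul_right _ hcon
    nlinarith
  have hVm : ∀ x, V x < m := by
    intro x
    obtain ⟨i, hi⟩ := hC x
    refine lt_of_le_of_lt ?_ (hgm i)
    rw [hV, hg0]
    exact Nat.div_le_div_right (by omega)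
  have hthr : ∀ i p : ℕ, 1 ≤ i → (i ≤ (p + o) / c0 ↔ i * c0 - o ≤ p) := by
    intro i p hi
    rw [Nat.le_div_iff_mul_le hc0']
    omega
  -- the flats
  obtain ⟨F, hF⟩ : ∃ F : ℕ → Finset α, ∀ i, F i = univ.filter (fun x => i ≤ V x) :=
    ⟨_, fun _ => rfl⟩
  have hmF : ∀ i x, x ∈ F i ↔ i ≤ V x := by
    intro i x
    rw [hF, mem_filter]
    exact and_iff_right (mem_univ x)
  have hFl : ∀ i, 1 ≤ i → F i = lev v (i * c0 - o) := by
    intro i hi
    ext x
    rw [hmF, mem_lev, hV]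
    exact hthr i (v x) hi
  have hFcl : ∀ i, 1 ≤ i → Closed R (F i) := by
    intro i hi
    rw [hFl i hi]
    exact hcl _
  have hIlt : ∀ i, 1 ≤ i → ∀ β, i ≤ g0 β →
      R.r (F i) < (univ.filter (fun β' => i ≤ g0 β')).card := by
    intro i hi β hβ
    have h1 : 1 ≤ i * c0 - o := by
      have : c0 ≤ i * c0 := Nat.le_mul_of_pos_left c0 hi
      omega
    have h2 := hact (i * c0 - o) h1 β (by
      rw [← hthr i (y β) hi, ← hg0]
      exact hβ)
    rw [← hFl i hi] at h2
    have h3 : univ.filter (fun i' => i * c0 - o ≤ y i') = univ.filter (fun β' => i ≤ g0 β') := by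
      ext β'
      rw [mem_filter, mem_filter, hg0, hthr i (y β') hi]
    rwa [h3] at h2
  have hYr : ∀ i (j : Fin k), ((F i).filter (fun z => t z = j)).card ≤ R.r (F i) :=
    fun i j => (hind j _ (fun x hx => (mem_filter.1 hx).2)).trans (R.mono (filter_subset _ _))
  have hdd : ∀ i, 1 ≤ i → ∀ β, i ≤ g0 β →
      ∑ j : Fin k, (R.r (F i) - ((F i).filter (fun z => t z = j)).card) ≤
      (univ.filter (fun x => V x < i ∧ i ≤ g0 (b x))).card := by
    intro i hi β hβ
    have h1 := hIlt i hi β hβ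
    have h2 : blkU b (univ.filter (fun β' => i ≤ g0 β')) \ F i =
        univ.filter (fun x => V x < i ∧ i ≤ g0 (b x)) := by
      ext x
      simp only [mem_sdiff, mem_blkU, mem_filter, mem_univ, true_and, hmF, not_le]
      exact and_comm
    rw [← h2]
    have h3 := card_sdiff_add_card_inter (blkU b (univ.filter (fun β' => i ≤ g0 β'))) (F i)
    rw [hA] at h3
    have h4 : (blkU b (univ.filter (fun β' => i ≤ g0 β')) ∩ F i).card ≤ (F i).card :=
      card_le_card inter_subset_right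
    have h5 : (F i).card = ∑ j : Fin k, ((F i).filter (fun x => t x = j)).card :=
      card_eq_sum_card_fiberwise (fun x _ => mem_coe.2 (mem_univ (t x)))
    have h6 : ∑ j : Fin k, (R.r (F i) - ((F i).filter (fun z => t z = j)).card) + (F i).card =
        k * R.r (F i) := by
      rw [h5, ← sum_add_distrib, sum_congr rfl fun j _ => Nat.sub_add_cancel (hYr i j),
        sum_const, card_univ, Fintype.card_fin, smul_eq_mul]
    have h7 : k * R.r (F i) ≤ k * (univ.filter (fun β' => i ≤ g0 β')).card :=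
      Nat.mul_le_mul_left k h1.le
    omega
  -- the colour
  obtain ⟨j, hj⟩ : ∃ j : Fin k, k * ∑ i ∈ Icc 1 (m - 1), (if ∃ β, i ≤ g0 β then
      R.r (F i) - ((F i).filter (fun z => t z = j)).card else 0) ≤
      ∑ x, (g0 (b x) - V x) := by
    by_contra hcon
    push Not at hcon
    have h1 : ∑ _j : Fin k, ∑ x, (g0 (b x) - V x) <
        ∑ j : Fin k, k * ∑ i ∈ Icc 1 (m - 1), (if ∃ β, i ≤ g0 β then
          R.r (F i) - ((F i).filter (fun z => t z = j)).card else 0) :=
      sum_lt_sum_of_nonempty ⟨⟨0, hk⟩, mem_univ _⟩ (fun j _ => hcon j)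
    rw [sum_const, card_univ, Fintype.card_fin, smul_eq_mul, ← mul_sum] at h1
    have h2 := Nat.lt_of_mul_lt_mul_left h1
    rw [sum_comm, cnt (fun x => g0 (b x)) V (m - 1)
      (fun x => Nat.le_sub_one_of_lt (hgm (b x)))] at h2
    refine absurd h2 (not_lt.mpr (sum_le_sum fun i hi => ?_))
    by_cases hβ : ∃ β, i ≤ g0 β
    · simp only [if_pos hβ]
      obtain ⟨β, hβ⟩ := hβ
      exact hdd i (mem_Icc.mp hi).1 β hβ
    · simp only [if_neg hβ, sum_const_zero]
      exact Nat.zero_le _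
  have htot : ∑ i ∈ Icc 1 (m - 1), (if ∃ β, i ≤ g0 β then
      R.r (F i) - ((F i).filter (fun z => t z = j)).card else 0) ≤ m := by
    have h1 := (Nat.mul_le_mul_left c0 hj).trans hoD'
    by_contra hcon
    push Not at hcon
    have h2 := Nat.mul_lt_mul_of_pos_right hcon hkc
    nlinarith
  -- the additional elements
  have hQ : ∀ i, ∃ Qi : Finset α, (1 ≤ i → Qi.card = if ∃ β, i ≤ g0 β then
      R.r (F i) - ((F i).filter (fun z => t z = j)).card else 0) ∧
      (1 ≤ i → (∃ β, i ≤ g0 β) → cl R ((F i).filter (fun z => t z = j) ∪ Qi) = F i) := by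
    intro i
    by_cases h : 1 ≤ i ∧ ∃ β, i ≤ g0 β
    · obtain ⟨Q, -, hc, hcl'⟩ := exists_extend (hFcl i h.1)
        (R.r (F i) - ((F i).filter (fun z => t z = j)).card)
        ((F i).filter (fun z => t z = j)) (filter_subset _ _)
        (by rw [le_antisymm (R.le_card _) (hind j _ (fun x hx => (mem_filter.1 hx).2))])
      exact ⟨Q, fun _ => by rw [if_pos h.2, hc], fun _ _ => hcl'⟩
    · refine ⟨∅, fun h1 => ?_, fun h1 h2 => absurd ⟨h1, h2⟩ h⟩
      rw [if_neg (fun h2 => h ⟨h1, h2⟩), card_empty]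
  choose Qf hQc hQcl using hQ
  have hm : 0 < m := lt_of_le_of_lt (Nat.zero_le _) (hgm ⟨0, hn⟩)
  obtain ⟨x0, -⟩ : (univ.filter (fun x => b x = ⟨0, hn⟩)).Nonempty := by
    rw [← card_pos, hb]
    exact hk
  have hPc : ((univ : Finset (Fin m × α)).filter
      (fun p => 1 ≤ p.1.val ∧ p.2 ∈ Qf p.1.val)).card ≤ m := by
    have h1 : ((univ : Finset (Fin m × α)).filter
        (fun p => 1 ≤ p.1.val ∧ p.2 ∈ Qf p.1.val)).card ≤ ((Icc 1 (m - 1)).sigma Qf).card := by
      refine card_le_card_of_injOn (fun p => (⟨p.1.val, p.2⟩ : Σ _ : ℕ, α)) ?_ ?_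
      · intro p hp
        have hp' := (mem_filter.mp (mem_coe.mp hp)).2
        have hp2 := p.1.2
        refine mem_coe.mpr (mem_sigma.mpr ⟨mem_Icc.mpr ⟨hp'.1, ?_⟩, hp'.2⟩)
        show p.1.val ≤ m - 1
        omega
      · rintro ⟨i, x⟩ _ ⟨i', x'⟩ _ h
        simp only [Sigma.mk.injEq, heq_eq_eq] at h
        exact Prod.ext (Fin.ext h.1) h.2
    rw [card_sigma] at h1
    exact h1.trans (le_trans (le_of_eq (sum_congr rfl fun i hi => hQc i (mem_Icc.mp hi).1)) htot)
  obtain ⟨Q, hQ1, hQ2⟩ := enum _ m hPc (⟨⟨0, hm⟩, x0⟩ : Fin m × α)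
  obtain ⟨u, hu⟩ : ∃ u : Fin n → Fin m, ∀ z, t z = j → (u (a z)).val = V z := by
    classical
    refine ⟨fun β => if h : ∃ z, t z = j ∧ a z = β then ⟨V h.choose, hVm _⟩ else ⟨0, hm⟩, ?_⟩
    intro z hz
    have h : ∃ z', t z' = j ∧ a z' = a z := ⟨z, hz, rfl⟩
    simp only [dif_pos h]
    rw [ha h.choose z (h.choose_spec.1.trans hz.symm) h.choose_spec.2]
  -- the family
  have hVf : ∀ x, x ∈ Vfam R b t a j (fun i => ⟨g0 i, hgm i⟩) u Q ↔ V x + 2 ≤ g0 (b x) := by
    intro x
    unfold Vfam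
    rw [mem_filter]
    simp only [mem_univ, true_and]
    by_cases h2 : 2 ≤ g0 (b x)
    · have E1 : univ.filter (fun z => t z = j ∧ g0 (b x) ≤ (u (a z)).val + 1) =
          (F (g0 (b x) - 1)).filter (fun z => t z = j) := by
        ext z
        rw [mem_filter, mem_filter, hmF]
        constructor
        · rintro ⟨-, h3, h4⟩
          rw [hu z h3] at h4
          exact ⟨by omega, h3⟩
        · rintro ⟨h3, h4⟩
          refine ⟨mem_univ _, h4, ?_⟩
          rw [hu z h4]
          omega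
      have E2 : (univ.filter (fun i : Fin m => (Q i).1.val + 1 = g0 (b x))).image
          (fun i => (Q i).2) = Qf (g0 (b x) - 1) := by
        ext q
        rw [mem_image]
        constructor
        · rintro ⟨i, hi, rfl⟩
          have hi' := (mem_filter.mp hi).2
          rcases hQ2 i with h3 | h3
          · have h4 := (mem_filter.mp h3).2.2
            have h5 : (Q i).1.val = g0 (b x) - 1 := by omega
            rwa [h5] at h4
          · rw [h3] at hi'
            have : 0 + 1 = g0 (b x) := hi'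
            omega
        · intro hq
          have hlt : g0 (b x) - 1 < m := by
            have := hgm (b x)
            omega
          obtain ⟨i, hi⟩ := hQ1 (⟨⟨g0 (b x) - 1, hlt⟩, q⟩ : Fin m × α)
            (mem_filter.mpr ⟨mem_univ _, by show 1 ≤ g0 (b x) - 1; omega, hq⟩)
          refine ⟨i, mem_filter.mpr ⟨mem_univ _, ?_⟩, by rw [hi]⟩
          rw [hi]
          show g0 (b x) - 1 + 1 = g0 (b x)
          omega
      rw [E1, E2, hQcl (g0 (b x) - 1) (by omega) ⟨b x, by omega⟩, hmF]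
      omega
    · constructor
      · rintro ⟨h3, -⟩
        exact absurd h3 h2
      · intro h3
        omega
  refine ⟨j, fun i => ⟨g0 i, hgm i⟩, u, Q, ?_, ?_⟩
  · intro x hx
    rw [hVf, hV, hg0, Nat.le_div_iff_mul_le hc0']
    have h1 := Nat.div_mul_le_self (v x + o) c0
    rw [add_mul]
    omega
  · intro x hx
    rw [hVf, hg0, Nat.le_div_iff_mul_le hc0'] at hx
    have h1 : v x + o < (V x + 1) * c0 := by
      rw [← Nat.div_lt_iff_lt_mul hc0', ← hV]
      exact Nat.lt_succ_self _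
    rw [add_mul] at hx h1
    omega

end Pool.Agent.Helper64.MT3
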